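import Pool.Agent.K1H82.KQ.TorB
import Pool.Agent.K1H82.KQ.St
import Pool.Agent.K1H82.KM.Loc

/-!
# Quotients of products of simple abelian varieties by groups of affine automorphisms: definitions
-/

set_option autoImplicit false

open MvPolynomial Pool.Agent.TH954.X Pool.Agent.K1H82.KM Pool.Agent.K1H82.KQ

namespace Pool.Agent.K1H82.KA

/-- the points over the algebraic closure of the product of the abelian varieties `A b` -/
abbrev PtsB {K : Type} [Field K] {n r : ℕ} (A : Fin r → AbVar K n) : Type := ∀ b, PtB (A b)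

/-- `x` are coordinates of the image of `P` under the map given by the tuples of forms in `Fam` -/
def ImgP {K : Type} [Field K] {n r N : ℕ} {A : Fin r → AbVar K n}
    (Fam : Finset (Fin N → MvPolynomial (Fin r × Fin n) K)) (P : PtsB A)
    (x : Fin N → AlgebraicClosure K) : Prop := Val Fam (crds (A := A) P) x

/-- A projective variety `X ⊆ ℙ ^ (N - 1)` over `K` (homogeneous equations `eqX`) and a map over `K`
given by the tuples of forms in `Fam` from the product of the `A b` onto `X`. -/
structure PMapP {K : Type} [Field K] {n r : ℕ} (A : Fin r → AbVar K n) (N : ℕ) where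
  eqX : Set (MvPolynomial (Fin N) K)
  homX : ∀ g ∈ eqX, ∃ d, g.IsHomogeneous d
  Fam : Finset (Fin N → MvPolynomial (Fin r × Fin n) K)
  d : Fin r → ℕ
  Fam_hom : ∀ C ∈ Fam, ∀ c, MH d (C c)
  total : ∀ P : PtsB A, ∃ x, OnX eqX x ∧ ImgP Fam P x
  surj : ∀ x, OnX eqX x → ∃ P : PtsB A, ImgP Fam P x

/-- The group `G` acts on each factor, over the algebraic closure, through the maps
`P ↦ α_g (P) + t_g` with a homomorphism `α_g` and a point `t_g`. -/
structure GActP {K : Type} [Field K] {n r : ℕ} (A : Fin r → AbVar K n) (G : Type) [Group G] where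
  lin : G → ∀ b, PtB (A b) → PtB (A b)
  lin_one : ∀ b P, lin 1 b P = P
  lin_mul : ∀ g h b P, lin (g * h) b P = lin g b (lin h b P)
  lin_add : ∀ g b P Q, lin g b (P + Q) = lin g b P + lin g b Q
  tr : G → PtsB A
  tr_mul : ∀ g h b, tr (g * h) b = lin g b (tr h b) + tr g b

/-- The fibres of the map from the product to `X` over the points over the algebraic closure are the
orbits of `G`: the variety `X` is the quotient of the product by `G`. -/
def IsQuotP {K : Type} [Field K] {n r N : ℕ} {A : Fin r → AbVar K n} {G : Type} [Group G]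
    (X : PMapP A N) (T : GActP A G) : Prop :=
  ∀ (P Q : PtsB A) (x : Fin N → AlgebraicClosure K), ImgP X.Fam P x →
    (ImgP X.Fam Q x ↔ ∃ g : G, ∀ b, Q b = T.lin g b (P b) + T.tr g b)

section act

variable {K : Type} [Field K] {n r N : ℕ} {A : Fin r → AbVar K n} {G : Type} [Group G]

/-- the linear parts -/
noncomputable def ln (T : GActP A G) (g : G) (b : Fin r) :
    (A b).Pt (AlgebraicClosure K) →+ (A b).Pt (AlgebraicClosure K) :=
  AddMonoidHom.mk' (T.lin g b) (T.lin_add g b)

lemma ln_one (T : GActP A G) (b : Fin r) (P : (A b).Pt (AlgebraicClosure K)) :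
    ln T 1 b P = P := T.lin_one b P

lemma ln_mul (T : GActP A G) (g h : G) (b : Fin r) (P : (A b).Pt (AlgebraicClosure K)) :
    ln T (g * h) b P = ln T g b (ln T h b P) := T.lin_mul g h b P

/-- the action -/
noncomputable def apP (T : GActP A G) (g : G) (P : Pts A (AlgebraicClosure K)) :
    Pts A (AlgebraicClosure K) := fun b => ln T g b (P b) + T.tr g b

lemma trP_mul (T : GActP A G) (g h : G) (b : Fin r) :
    T.tr (g * h) b = ln T g b (T.tr h b) + T.tr g b := T.tr_mul g h b

lemma trP_one (T : GActP A G) (b : Fin r) : T.tr 1 b = 0 := by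
  have h := trP_mul T 1 1 b
  rw [mul_one, ln_one] at h
  exact left_eq_add.1 h

lemma apP_mul (T : GActP A G) (g h : G) (P : Pts A (AlgebraicClosure K)) :
    apP T (g * h) P = apP T g (apP T h P) := by
  funext b
  change ln T (g * h) b (P b) + T.tr (g * h) b = ln T g b (ln T h b (P b) + T.tr h b) + T.tr g b
  rw [ln_mul, trP_mul, map_add, add_assoc]

lemma apP_one (T : GActP A G) (P : Pts A (AlgebraicClosure K)) : apP T 1 P = P := by
  funext b
  change ln T 1 b (P b) + T.tr 1 b = P b
  rw [ln_one, trP_one, add_zero]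

lemma fibP {X : PMapP A N} {T : GActP A G} (h : IsQuotP X T)
    (P Q : Pts A (AlgebraicClosure K)) (x : Fin N → AlgebraicClosure K)
    (hx : Val X.Fam (crds P) x) : Val X.Fam (crds Q) x ↔ ∃ g : G, Q = apP T g P := by
  refine (h P Q x hx).trans ⟨?_, ?_⟩
  · rintro ⟨g, hg⟩
    exact ⟨g, funext hg⟩
  · rintro ⟨g, rfl⟩
    exact ⟨g, fun b => rfl⟩

/-- conjugates of tuples -/
noncomputable def sgP (σ : AlgebraicClosure K ≃ₐ[K] AlgebraicClosure K)
    (P : Pts A (AlgebraicClosure K)) : Pts A (AlgebraicClosure K) := fun b => sg (A b) σ (P b)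

lemma val_sgP {Fam : Finset (Fin N → MvPolynomial (Fin r × Fin n) K)}
    {P : Pts A (AlgebraicClosure K)} {x : Fin N → AlgebraicClosure K}
    (h : Val Fam (crds P) x) (σ : AlgebraicClosure K ≃ₐ[K] AlgebraicClosure K) :
    Val Fam (crds (sgP σ P)) (mapV σ.toAlgHom x) := h.map σ.toAlgHom

lemma mapV_up (y : Fin N → K) (σ : AlgebraicClosure K ≃ₐ[K] AlgebraicClosure K) :
    mapV σ.toAlgHom (up y) = up y := by
  funext c
  change σ (algebraMap K (AlgebraicClosure K) (y c)) = _
  rw [AlgEquiv.commutes]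
  rfl

/-- the conjugates of a point with rational image -/
lemma conjP {X : PMapP A N} {T : GActP A G} (h : IsQuotP X T)
    {P : Pts A (AlgebraicClosure K)} {y : Fin N → K} (hy : Val X.Fam (crds P) (up y))
    (σ : AlgebraicClosure K ≃ₐ[K] AlgebraicClosure K) : ∃ g, sgP σ P = apP T g P := by
  have h1 := val_sgP hy σ
  rw [mapV_up] at h1
  exact (fibP h P _ _ hy).1 h1

section center

variable [Fintype G]

/-- the sum of the translations -/
noncomputable def cenP (T : GActP A G) (b : Fin r) : (A b).Pt (AlgebraicClosure K) :=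
  ∑ g, T.tr g b

lemma ln_cen (T : GActP A G) (g : G) (b : Fin r) :
    ln T g b (cenP T b) = cenP T b - Fintype.card G • T.tr g b := by
  unfold cenP
  rw [map_sum]
  have h1 : ∀ h, ln T g b (T.tr h b) = T.tr (g * h) b - T.tr g b := by
    intro h
    rw [trP_mul, add_sub_cancel_right]
  simp_rw [h1]
  rw [Finset.sum_sub_distrib, Finset.sum_const, Finset.card_univ]
  congr 1
  exact Fintype.sum_equiv (Equiv.mulLeft g) _ _ (fun _ => rfl)

open Classical in
/-- sums over the group as sums over the orbit of zero -/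
lemma sum_orbit (T : GActP A G) : ∃ s : ℕ, ∀ (b : Fin r)
    (F : Pts A (AlgebraicClosure K) → (A b).Pt (AlgebraicClosure K)),
    ∑ g, F (T.tr g) = s • ∑ q ∈ Finset.univ.image T.tr, F q := by
  refine ⟨(Finset.univ.filter (fun h : G => T.tr h = 0)).card, fun b F => ?_⟩
  rw [← Finset.sum_fiberwise_of_maps_to (s := Finset.univ) (t := Finset.univ.image T.tr)
    (g := T.tr) (fun g _ => Finset.mem_image_of_mem _ (Finset.mem_univ g)), Finset.smul_sum]
  refine Finset.sum_congr rfl (fun q hq => ?_)
  obtain ⟨g0, -, hg0⟩ := Finset.mem_image.1 hq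
  rw [Finset.sum_congr rfl (fun g hg => by rw [(Finset.mem_filter.1 hg).2]), Finset.sum_const]
  congr 1
  refine (Finset.card_bij (fun h _ => g0 * h) ?_ ?_ ?_).symm
  · intro h hh
    rw [Finset.mem_filter] at hh ⊢
    refine ⟨Finset.mem_univ _, ?_⟩
    rw [← hg0]
    funext b
    rw [trP_mul, hh.2]
    change ln T g0 b 0 + _ = _
    rw [map_zero, zero_add]
  · intro h _ h' _ e
    exact mul_left_cancel e
  · intro g hg
    rw [Finset.mem_filter] at hg
    refine ⟨g0⁻¹ * g, ?_, by rw [mul_inv_cancel_left]⟩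
    rw [Finset.mem_filter]
    refine ⟨Finset.mem_univ _, ?_⟩
    funext b
    rw [trP_mul, hg.2, ← hg0, ← trP_mul, inv_mul_cancel, trP_one]
    rfl

open Classical in
lemma sg_cenP {X : PMapP A N} {T : GActP A G} (h : IsQuotP X T)
    (σ : AlgebraicClosure K ≃ₐ[K] AlgebraicClosure K) (b : Fin r) :
    sg (A b) σ (cenP T b) = cenP T b := by
  obtain ⟨s, hs⟩ := sum_orbit T
  have hmaps : ∀ q ∈ Finset.univ.image T.tr, sgP σ q ∈ Finset.univ.image T.tr := by
    intro q hq
    obtain ⟨g, -, hg⟩ := Finset.mem_image.1 hq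
    obtain ⟨x, -, hx⟩ := X.total (fun b => (0 : (A b).Pt (AlgebraicClosure K)))
    have hx' : Val X.Fam (crds (A := A) (fun b => (0 : (A b).Pt (AlgebraicClosure K)))) x := hx
    have h0 : apP T g (fun b => (0 : (A b).Pt (AlgebraicClosure K))) = q := by
      rw [← hg]
      funext b
      change ln T g b 0 + T.tr g b = T.tr g b
      rw [map_zero, zero_add]
    have h1 : Val X.Fam (crds q) x := (fibP h _ _ _ hx').2 ⟨g, h0.symm⟩
    have h2 := val_sgP h1 σ
    have h3 := val_sgP hx' σ
    have h4 : sgP (A := A) σ (fun b => (0 : (A b).Pt (AlgebraicClosure K))) = fun b => 0 := by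
      funext b
      change sg (A b) σ 0 = 0
      rw [map_zero]
    rw [h4] at h3
    obtain ⟨g', hg'⟩ := (fibP h _ _ _ h3).1 h2
    rw [Finset.mem_image]
    refine ⟨g', Finset.mem_univ _, ?_⟩
    rw [hg']
    funext b
    change _ = ln T g' b 0 + T.tr g' b
    rw [map_zero, zero_add]
  have hinj : Function.Injective (sgP (A := A) σ) := by
    intro P Q hPQ
    funext b
    exact mapPt_inj (A b) σ.toAlgHom (congrFun hPQ b)
  have h1 : cenP T b = s • ∑ q ∈ Finset.univ.image T.tr, q b := hs b (fun q => q b)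
  rw [h1, map_nsmul, map_sum]
  congr 1
  have h2 : (Finset.univ.image T.tr).image (sgP σ) = Finset.univ.image T.tr := by
    refine Finset.eq_of_subset_of_card_le ?_ ?_
    · intro q hq
      obtain ⟨q', hq', rfl⟩ := Finset.mem_image.1 hq
      exact hmaps q' hq'
    · rw [Finset.card_image_of_injective _ hinj]
  conv_rhs => rw [← h2]
  rw [Finset.sum_image (fun q _ q' _ e => hinj e)]
  rfl

/-- the twisted multiples -/
noncomputable def RP (T : GActP A G) (P : Pts A (AlgebraicClosure K)) (b : Fin r) :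
    (A b).Pt (AlgebraicClosure K) := Fintype.card G • P b - cenP T b

lemma sg_RP {X : PMapP A N} {T : GActP A G} (h : IsQuotP X T)
    {P : Pts A (AlgebraicClosure K)} {σ : AlgebraicClosure K ≃ₐ[K] AlgebraicClosure K} {g : G}
    (hg : sgP σ P = apP T g P) (b : Fin r) : sg (A b) σ (RP T P b) = ln T g b (RP T P b) := by
  have h1 : sg (A b) σ (P b) = ln T g b (P b) + T.tr g b := congrFun hg b
  unfold RP
  rw [map_sub, map_nsmul, sg_cenP h, h1, map_sub, map_nsmul, ln_cen, smul_add]
  abel

end center

end act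

end Pool.Agent.K1H82.KA
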