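import Pool.Agent.K1H82.KM.Defs
import Pool.Agent.TH954.Z.WTop

/-!
# Elliptic curves are instances
-/

set_option autoImplicit false
set_option linter.unusedSectionVars false

open MvPolynomial Pool.Agent.TH954.X Pool.Agent.K1H82.KM

namespace Pool.Agent.K1H82.KA

/-- forget the endomorphisms -/
def ofAbR {K : Type} [Field K] {n : ℕ} (A : AbR K n) : AbVar K n where
  e := A.e
  eqn := A.eqn
  deg := A.deg
  hom := A.hom
  grp := A.grp
  Λ := A.Λ
  Λ_hom := A.Λ_hom
  Λ_spec := A.Λ_spec
  div := A.div

section poly

variable {F : Type} [Field F] {n : ℕ}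

/-- the vector `(1, x, y, 0, ..., 0)` -/
def vec (n : ℕ) (x y : F) : Fin n → F := fun c => if h : c.1 < 3 then ![1, x, y] ⟨c.1, h⟩ else 0

lemma exists_pq (a b : F) (g : MvPolynomial (Fin n) F) : ∃ p q : Polynomial F, ∀ x y : F,
    y ^ 2 = x ^ 3 + a * x + b → eval (vec n x y) g = p.eval x + q.eval x * y := by
  induction g using MvPolynomial.induction_on with
  | C c =>
    refine ⟨Polynomial.C c, 0, fun x y _ => ?_⟩
    rw [eval_C, Polynomial.eval_C, Polynomial.eval_zero]
    ring
  | add g h hg hh =>
    obtain ⟨p, q, hp⟩ := hg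
    obtain ⟨p', q', hp'⟩ := hh
    refine ⟨p + p', q + q', fun x y hxy => ?_⟩
    rw [map_add, hp x y hxy, hp' x y hxy, Polynomial.eval_add, Polynomial.eval_add]
    ring
  | mul_X g i hg =>
    obtain ⟨p, q, hp⟩ := hg
    obtain ⟨i, hi⟩ := i
    by_cases h : i < 3
    · have h3 : i = 0 ∨ i = 1 ∨ i = 2 := by omega
      rcases h3 with rfl | rfl | rfl
      · refine ⟨p, q, fun x y hxy => ?_⟩
        rw [map_mul, eval_X, hp x y hxy]
        have : vec n x y ⟨0, hi⟩ = 1 := by simp [vec]
        rw [this, mul_one]
      · refine ⟨p * Polynomial.X, q * Polynomial.X, fun x y hxy => ?_⟩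
        rw [map_mul, eval_X, hp x y hxy]
        have : vec n x y ⟨1, hi⟩ = x := by simp [vec]
        rw [this, Polynomial.eval_mul, Polynomial.eval_mul, Polynomial.eval_X]
        ring
      · refine ⟨q * (Polynomial.X ^ 3 + Polynomial.C a * Polynomial.X + Polynomial.C b), p,
          fun x y hxy => ?_⟩
        rw [map_mul, eval_X, hp x y hxy]
        have : vec n x y ⟨2, hi⟩ = y := by simp [vec]
        rw [this, Polynomial.eval_mul, Polynomial.eval_add, Polynomial.eval_add,
          Polynomial.eval_pow, Polynomial.eval_mul, Polynomial.eval_C, Polynomial.eval_C,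
          Polynomial.eval_X, ← hxy]
        ring
    · refine ⟨0, 0, fun x y hxy => ?_⟩
      have : vec n x y ⟨i, hi⟩ = 0 := by simp [vec, h]
      rw [map_mul, eval_X, this]
      simp

lemma norm_zero {a b : F} {p q : Polynomial F}
    (h : p ^ 2 = q ^ 2 * (Polynomial.X ^ 3 + Polynomial.C a * Polynomial.X + Polynomial.C b)) :
    p = 0 ∧ q = 0 := by
  have hf : (Polynomial.X ^ 3 + Polynomial.C a * Polynomial.X + Polynomial.C b :
      Polynomial F).natDegree = 3 := by compute_degree!
  have hf0 : (Polynomial.X ^ 3 + Polynomial.C a * Polynomial.X + Polynomial.C b :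
      Polynomial F) ≠ 0 := by
    intro h0
    rw [h0, Polynomial.natDegree_zero] at hf
    exact absurd hf (by norm_num)
  have hq : q = 0 := by
    by_contra hq
    have h1 := congrArg Polynomial.natDegree h
    rw [Polynomial.natDegree_pow, Polynomial.natDegree_mul (pow_ne_zero _ hq) hf0,
      Polynomial.natDegree_pow, hf] at h1
    omega
  refine ⟨?_, hq⟩
  rw [hq] at h
  simpa using h

end poly

theorem weier {K : Type} [Field K] [CharZero K] {n : ℕ} (hn : 3 ≤ n) (a b : K)
    (hD : 4 * a ^ 3 + 27 * b ^ 2 ≠ 0) : ∃ A : AbVar K n, GeomSimple A ∧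
      ∀ (F : Type) [Field F] [DecidableEq F] [Algebra K F],
        ∃ e : A.Pt F ≃+ (We.curve (algebraMap K F a) (algebraMap K F b)).toAffine.Point,
          ∀ P : A.Pt F, P.1 =
            fun c : Fin n => if h : c.1 < 3 then We.coords (e P) ⟨c.1, h⟩ else 0 := by
  classical
  obtain ⟨A0, -, hA0⟩ := Pool.Agent.TH954.Z.WTop.one hn a b hD
  refine ⟨ofAbR A0.toAbR, ?_, fun F _ _ _ => hA0 F⟩
  obtain ⟨e, he⟩ := hA0 (AlgebraicClosure K)
  have hpt : ∀ P : (ofAbR A0.toAbR).Pt (AlgebraicClosure K), P = 0 ∨ ∃ x y,
      y ^ 2 = x ^ 3 + algebraMap K (AlgebraicClosure K) a * x +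
        algebraMap K (AlgebraicClosure K) b ∧ P.1 = vec n x y := by
    intro P
    have h1 := he P
    rcases hP : e P with _ | ⟨x, y, hxy⟩
    · left
      have h2 : e P = e 0 := by
        rw [hP, map_zero]
        rfl
      exact e.injective h2
    · right
      refine ⟨x, y, ?_, ?_⟩
      · have h4 := (WeierstrassCurve.Affine.equation_iff _ _).1 hxy.1
        simp only [We.curve] at h4
        linear_combination h4
      · rw [h1, hP]
        rfl
  clear he e
  generalize ofAbR A0.toAbR = A at hpt
  generalize algebraMap K (AlgebraicClosure K) a = a' at hpt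
  generalize algebraMap K (AlgebraicClosure K) b = b' at hpt
  intro S hS H hH
  by_cases hfin : (H : Set (A.Pt (AlgebraicClosure K))).Finite
  · exact Or.inl hfin
  · right
    rw [eq_top_iff]
    intro P _
    rw [hH]
    intro g hg
    obtain ⟨p, q, hpq⟩ := exists_pq a' b' g
    set f : Polynomial (AlgebraicClosure K) :=
      Polynomial.X ^ 3 + Polynomial.C a' * Polynomial.X + Polynomial.C b' with hf
    have hfe : ∀ x, f.eval x = x ^ 3 + a' * x + b' := by
      intro x
      simp [hf]
    have hN : p ^ 2 - q ^ 2 * f = 0 := by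
      by_contra hN
      apply hfin
      -- the possible coordinates
      set X0 : Set (AlgebraicClosure K) := {x | (p ^ 2 - q ^ 2 * f).eval x = 0} ∪ {0} with hX0
      have hX0f : X0.Finite := by
        refine Set.Finite.union ?_ (Set.finite_singleton 0)
        refine (Finset.finite_toSet (p ^ 2 - q ^ 2 * f).roots.toFinset).subset ?_
        intro x hx
        rw [Finset.mem_coe, Multiset.mem_toFinset, Polynomial.mem_roots hN]
        exact hx
      have hYf : (⋃ x ∈ X0, {y : AlgebraicClosure K | y ^ 2 = x ^ 3 + a' * x + b'}).Finite := by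
        refine hX0f.biUnion (fun x _ => ?_)
        have hne : (Polynomial.X ^ 2 - Polynomial.C (x ^ 3 + a' * x + b') :
            Polynomial (AlgebraicClosure K)) ≠ 0 :=
          Polynomial.X_pow_sub_C_ne_zero (by norm_num) _
        refine (Finset.finite_toSet (Polynomial.X ^ 2 - Polynomial.C (x ^ 3 + a' * x + b') :
            Polynomial (AlgebraicClosure K)).roots.toFinset).subset ?_
        intro y hy
        rw [Finset.mem_coe, Multiset.mem_toFinset, Polynomial.mem_roots hne, Polynomial.IsRoot,
          Polynomial.eval_sub, Polynomial.eval_pow, Polynomial.eval_X, Polynomial.eval_C]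
        exact sub_eq_zero.2 hy
      have hT : ((({0, 1} : Set (AlgebraicClosure K)) ∪ X0) ∪
          ⋃ x ∈ X0, {y : AlgebraicClosure K | y ^ 2 = x ^ 3 + a' * x + b'}).Finite :=
        ((Set.toFinite _).union hX0f).union hYf
      refine (((Set.Finite.pi (fun _ : Fin n => hT)).preimage
        (Subtype.val_injective.injOn (s := _))).union (Set.finite_singleton
          (0 : A.Pt (AlgebraicClosure K)))).subset ?_
      intro Q hQ
      rcases hpt Q with rfl | ⟨x, y, hxy, hQ1⟩
      · right
        rfl
      · left
        have h1 : eval Q.1 g = 0 := (hH Q).1 hQ g hg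
        rw [hQ1, hpq x y hxy] at h1
        have hx : x ∈ X0 := by
          left
          change (p ^ 2 - q ^ 2 * f).eval x = 0
          rw [Polynomial.eval_sub, Polynomial.eval_pow, Polynomial.eval_mul, Polynomial.eval_pow,
            hfe, ← hxy]
          linear_combination (p.eval x - q.eval x * y) * h1
        rw [Set.mem_preimage, Set.mem_pi]
        intro c _
        have h2 : (Subtype.val Q : Fin n → AlgebraicClosure K) c = vec n x y c :=
          congrFun hQ1 c
        rw [h2]
        obtain ⟨c, hc⟩ := c
        by_cases h : c < 3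
        · have h3 : c = 0 ∨ c = 1 ∨ c = 2 := by omega
          rcases h3 with rfl | rfl | rfl
          · left; left; right
            simp [vec]
          · left; right
            have : vec n x y ⟨1, hc⟩ = x := by simp [vec]
            rw [this]
            exact hx
          · right
            have : vec n x y ⟨2, hc⟩ = y := by simp [vec]
            rw [this]
            exact Set.mem_biUnion hx hxy
        · left; left; left
          simp [vec, h]
    obtain ⟨hp0, hq0⟩ := norm_zero (sub_eq_zero.1 hN)
    rcases hpt P with rfl | ⟨x, y, hxy, hP1⟩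
    · exact (hH 0).1 H.zero_mem g hg
    · rw [hP1, hpq x y hxy, hp0, hq0]
      simp

end Pool.Agent.K1H82.KA
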