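import Pool.Agent.K1H82.KA.Defs

/-!
# The local Zariski closures on quotients of products of simple abelian varieties
-/

set_option autoImplicit false
set_option linter.unusedSectionVars false

open MvPolynomial Pool.Agent.TH954.X Pool.Agent.K1H82.KM Pool.Agent.K1H82.KQ Filter Topology

namespace Pool.Agent.K1H82.KA

section near

variable {K : Type} [Field K] {n r N : ℕ} {L E : Type} [NontriviallyNormedField L] [ProperSpace L]
  [Field E] [Algebra L E] [FiniteDimensional L E] [TopologicalSpace E] [IsModuleTopology L E]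
  [Algebra K E] [Algebra K L] [IsScalarTower K L E]

theorem nearP {Fam : Finset (Fin N → MvPolynomial (Fin r × Fin n) K)} {d : Fin r → ℕ}
    (hFam : ∀ C ∈ Fam, ∀ c, MH d (C c)) (A : Fin r → AbVar K n) (P : Pts A E) (y : Fin N → K)
    (hy : Val Fam (crds P) (fun i => algebraMap K E (y i))) {U : Set (Fin N → L)}
    (hU : IsOpen U) (h0 : (0 : Fin N → L) ∉ U) {c0 : L}
    (hc0 : (fun i => c0 * algebraMap K L (y i)) ∈ U) :
    ∃ W : Fin r → Set (Fin n → E), (∀ b, W b ∈ 𝓝 (0 : (A b).Pt E).1) ∧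
      ∀ R : Pts A E, (∀ b, Nr (W b) (R b).1) → ∀ y' : Fin N → K,
        Val Fam (crds (A := A) (fun b => P b + R b)) (fun i => algebraMap K E (y' i)) →
        ∃ c : L, c ≠ 0 ∧ (fun i => c * algebraMap K L (y' i)) ∈ U := by
  have := topring L E
  obtain ⟨C, hC, s, hs, hCs⟩ := hy.exists_ne
  obtain ⟨ℓ, hℓ⟩ := LinearMap.exists_leftInverse_of_injective (Algebra.linearMap L E)
    (LinearMap.ker_eq_bot.2 (algebraMap L E).injective)
  have hℓ' : ∀ (z : L) (e : E), ℓ (e * algebraMap L E z) = z * ℓ e := by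
    intro z e
    rw [mul_comm, ← Algebra.smul_def, map_smul, smul_eq_mul]
  have hℓ1 : ∀ z : L, ℓ (algebraMap L E z) = z := fun z => LinearMap.congr_fun hℓ z
  have hℓc : Continuous ℓ := IsModuleTopology.continuous_of_linearMap ℓ
  set Ψ : (Fin r → Fin n → E) → (Fin N → L) := fun u i => c0 * ℓ (s⁻¹ * ev (C i) u) with hΨ
  have hΨc : Continuous Ψ := continuous_pi fun i => continuous_const.mul
    (hℓc.comp (continuous_const.mul (cont_ev (L := L) (C i))))
  have hΨ0 : Ψ (crds P) = fun i => c0 * algebraMap K L (y i) := by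
    funext i
    have h1 : ev (C i) (crds P) = s * algebraMap K E (y i) := congrFun hCs i
    simp only [hΨ]
    rw [h1, inv_mul_cancel_left₀ hs, IsScalarTower.algebraMap_apply K L E, hℓ1]
  have h1 : Ψ ⁻¹' U ∈ 𝓝 (crds P) := hΨc.continuousAt.preimage_mem_nhds (by
    rw [hΨ0]
    exact hU.mem_nhds hc0)
  obtain ⟨V, hV, hVU⟩ : ∃ V : Fin r → Set (Fin n → E), (∀ b, V b ∈ 𝓝 (crds P b)) ∧
      ∀ u, (∀ b, u b ∈ V b) → u ∈ Ψ ⁻¹' U := by
    rw [nhds_pi, Filter.mem_pi] at h1
    obtain ⟨I, -, V, hV, h2⟩ := h1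
    exact ⟨V, hV, fun u hu => h2 (fun b _ => hu b)⟩
  have h2 : ∀ b, ∃ W ∈ 𝓝 (0 : (A b).Pt E).1, ∀ Q : (A b).Pt E, Nr W Q.1 →
      Nr (V b) (P b + Q).1 := by
    intro b
    obtain ⟨W1, hW1, W2, hW2, h12⟩ := cont_add (L := L) (A b) (P b) 0 (W := V b) (by
      rw [add_zero]
      exact hV b)
    exact ⟨W2, hW2, fun Q hQ => h12 (P b) Q ⟨1, one_ne_zero, by
      rw [one_smul]
      exact mem_of_mem_nhds hW1⟩ hQ⟩
  choose W hW hW' using h2
  refine ⟨W, hW, fun R hR y' hy' => ?_⟩
  choose t ht ht' using fun b => hW' b _ (hR b)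
  have h4 : Ψ (fun b => t b • (P b + R b).1) ∈ U := hVU _ ht'
  obtain ⟨s', hs'⟩ := hy'.1 C hC
  have h5 : Ψ (fun b => t b • (P b + R b).1) =
      fun i => (c0 * ℓ (s⁻¹ * ((∏ b, t b ^ d b) * s'))) * algebraMap K L (y' i) := by
    funext i
    have h6 : ev (C i) (crds (A := A) fun b => P b + R b) = s' * algebraMap K E (y' i) :=
      congrFun hs' i
    have h7 := ev_smul (hFam C hC i) t (crds (A := A) fun b => P b + R b)
    change c0 * ℓ (s⁻¹ * ev (C i)
      (fun b => t b • crds (A := A) (fun b => P b + R b) b)) = _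
    rw [h7, h6, IsScalarTower.algebraMap_apply K L E, ← mul_assoc (∏ b, t b ^ d b),
      ← mul_assoc s⁻¹, hℓ']
    ring
  rw [h5] at h4
  refine ⟨_, ?_, h4⟩
  intro h0'
  apply h0
  have h8 : (fun i => (c0 * ℓ (s⁻¹ * ((∏ b, t b ^ d b) * s'))) * algebraMap K L (y' i)) =
      (0 : Fin N → L) := by
    funext i
    rw [h0', zero_mul]
    rfl
  rw [h8] at h4
  exact h4

end near

section multi

variable {K : Type} [Field K] {n r : ℕ}

theorem closure_trans2 {A : AbVar K n} (hA : GeomSimple A) (P R : A.Pt (AlgebraicClosure K))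
    (hR : ∀ m : ℤ, m ≠ 0 → m • R ≠ 0) {𝓤 : Set (Set ℤ)} (h𝓤 : IsBas 𝓤) {U : Set ℤ} (hU : U ∈ 𝓤)
    {g : MvPolynomial (Fin n) (AlgebraicClosure K)} {δ : ℕ} (hg : g.IsHomogeneous δ)
    (hgU : ∀ m ∈ U, eval (P + m • R).1 g = 0) (Q : A.Pt (AlgebraicClosure K)) :
    eval Q.1 g = 0 := by
  obtain ⟨U1, hU1, hsub⟩ := h𝓤.sub U hU
  have h1 : ∀ i, ∀ Q' : A.Pt (AlgebraicClosure K), eval Q'.1 (dif1 A g P i) = 0 := by
    intro i
    refine closure_all hA R hR h𝓤 hU1 (dif1_hom A hg P i) (fun m hm => ?_)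
    rw [dif1_eval]
    refine dif_zero A hg ?_ i
    have h2 := hgU _ (hsub 0 (h𝓤.zero U1 hU1) m hm)
    rwa [zero_sub, neg_smul, ← sub_eq_add_neg] at h2
  have h3 : eval (P - (P - Q)).1 g = 0 := by
    refine zero_of_dif A hg (fun i => ?_)
    rw [← dif1_eval]
    exact h1 i _
  rwa [sub_sub_cancel] at h3

variable {A : Fin r → AbVar K n}

theorem multi2 (hA : ∀ b, GeomSimple (A b)) (P R : Pts A (AlgebraicClosure K))
    (𝓤 : Fin r → Set (Set ℤ)) (h𝓤 : ∀ b, IsBas (𝓤 b)) (U : Fin r → Set ℤ) (hU : ∀ b, U b ∈ 𝓤 b)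
    {Φ : MvPolynomial (Fin r × Fin n) K} {τ : Fin r → ℕ} (hΦ : MH τ Φ)
    (h : ∀ m : Fin r → ℤ, (∀ b, m b ∈ U b) →
      ev Φ (crds (A := A) (fun b => P b + m b • R b)) = 0)
    (Q : Pts A (AlgebraicClosure K)) (hQ : ∀ b, b ∉ NT R → Q b = P b) : ev Φ (crds Q) = 0 := by
  classical
  have key : ∀ S : Finset (Fin r), (∀ b ∈ S, b ∈ NT R) → ∀ Q : Pts A (AlgebraicClosure K),
      (∀ b, b ∉ S → ∃ m ∈ U b, Q b = P b + m • R b) → ev Φ (crds Q) = 0 := by
    intro S
    induction S using Finset.induction_on with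
    | empty =>
      intro _ Q hQ
      choose m hm hm' using fun b => hQ b (Finset.notMem_empty b)
      have : Q = fun b => P b + m b • R b := funext hm'
      rw [this]
      exact h m hm
    | insert b0 S hb0 ih =>
      intro hS Q hQ
      have h1 : eval (Q b0).1 (spec b0 (crds Q) Φ) = 0 := by
        refine closure_trans2 (hA b0) (P b0) (R b0) (hS b0 (Finset.mem_insert_self _ _))
          (h𝓤 b0) (hU b0) (spec_hom b0 _ hΦ) (fun m hm => ?_) (Q b0)
        rw [spec_eval]
        have h2 := ih (fun b hb => hS b (Finset.mem_insert_of_mem hb))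
          (Function.update Q b0 (P b0 + m • R b0)) (fun b hb => ?_)
        · have h3 : crds (Function.update Q b0 (P b0 + m • R b0)) =
              fun j => if j = b0 then (P b0 + m • R b0).1 else crds Q j := by
            funext j
            by_cases hj : j = b0
            · subst hj
              simp [crds]
            · simp [crds, hj]
          rw [← h3]
          exact h2
        · by_cases hbb : b = b0
          · subst hbb
            exact ⟨m, hm, by rw [Function.update_self]⟩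
          · obtain ⟨m', hm', hm2⟩ := hQ b (by
              rw [Finset.mem_insert, not_or]
              exact ⟨hbb, hb⟩)
            exact ⟨m', hm', by rw [Function.update_of_ne hbb]; exact hm2⟩
      rw [spec_eval] at h1
      have h4 : (fun j => if j = b0 then (Q b0).1 else crds Q j) = crds Q := by
        funext j
        by_cases hj : j = b0
        · subst hj
          simp [crds]
        · simp [hj]
      rwa [h4] at h1
  refine key (Finset.univ.filter (· ∈ NT R)) (fun b hb => (Finset.mem_filter.1 hb).2) Q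
    (fun b hb => ⟨0, (h𝓤 b).zero _ (hU b), ?_⟩)
  rw [zero_smul, add_zero]
  refine hQ b (fun hb' => hb ?_)
  rw [Finset.mem_filter]
  exact ⟨Finset.mem_univ _, hb'⟩

end multi

section main

variable {K : Type} [Field K] {n r N : ℕ} {A : Fin r → AbVar K n} {G : Type} [Group G]

/-- The images of the points `P + m R` are rational. -/
theorem ratP [CharZero K] [Fintype G] {X : PMapP A N} {T : GActP A G} (h : IsQuotP X T)
    (P : Pts A (AlgebraicClosure K)) (y : Fin N → K)
    (hy : Val X.Fam (crds P) (up y)) (m : Fin r → ℤ) :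
    ∃ y' : Fin N → K, Normed y' ∧ (∀ g ∈ X.eqX, eval y' g = 0) ∧
      Val X.Fam (crds (A := A) (fun b => P b + m b • RP T P b)) (up y') := by
  obtain ⟨x, ⟨hx0, hxe⟩, hx⟩ := X.total (fun b => P b + m b • RP T P b)
  obtain ⟨s, x1, hs, hx1, rfl⟩ := exists_normed hx0
  have hxe1 : ∀ g ∈ X.eqX, aeval x1 g = 0 := by
    intro g hg
    obtain ⟨d, hd⟩ := X.homX g hg
    have h1 := hxe g hg
    rw [aeval_smul' hd] at h1
    exact (mul_eq_zero.1 h1).resolve_left (pow_ne_zero _ hs)
  have hv1 : Val X.Fam (crds (A := A) (fun b => P b + m b • RP T P b)) x1 := by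
    have h1 : Val X.Fam (crds (A := A) (fun b => P b + m b • RP T P b)) (s • x1) := hx
    have := h1.smul (inv_ne_zero hs)
    rwa [inv_smul_smul₀ hs] at this
  have hfix : ∀ φ : AlgebraicClosure K ≃ₐ[K] AlgebraicClosure K, ∀ c, φ (x1 c) = x1 c := by
    intro φ c
    obtain ⟨g, hg⟩ := conjP h hy φ
    have h4 : Val X.Fam (crds (sgP φ (fun b => P b + m b • RP T P b))) x1 := by
      refine (fibP h _ _ _ hv1).2 ⟨g, ?_⟩
      funext b
      change sg (A b) φ (P b + m b • RP T P b) =
        ln T g b (P b + m b • RP T P b) + T.tr g b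
      have h5 : sg (A b) φ (P b) = ln T g b (P b) + T.tr g b := congrFun hg b
      rw [map_add, map_zsmul, sg_RP h hg, h5, map_add, map_zsmul]
      abel
    have h5 := val_sgP hv1 φ
    obtain ⟨t, -, ht⟩ := h4.unique h5
    have h6 : mapV φ.toAlgHom x1 = x1 := normed_unique (Normed.mapV _ hx1) hx1 ht
    exact congrFun h6 c
  have hgal : IsGalois K (AlgebraicClosure K) := inferInstance
  have hmem : ∀ c, ∃ z : K, algebraMap K (AlgebraicClosure K) z = x1 c := by
    intro c
    have := (InfiniteGalois.mem_range_algebraMap_iff_fixed (k := K) (K := AlgebraicClosure K)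
      (x1 c)).2 (fun φ => hfix φ c)
    exact this
  choose y' hy' using hmem
  have hup : up y' = x1 := funext hy'
  refine ⟨y', ?_, fun g hg => ?_, ?_⟩
  · obtain ⟨i, hi, hj⟩ := hx1
    refine ⟨i, ?_, fun j hji => ?_⟩
    · apply (algebraMap K (AlgebraicClosure K)).injective
      rw [hy', hi, map_one]
    · apply (algebraMap K (AlgebraicClosure K)).injective
      rw [hy', hj j hji, map_zero]
  · rw [← eval_up_iff, hup]
    exact hxe1 g hg
  · rw [hup]
    exact hv1

/-- the polynomials which vanish at the images of the points which agree with `P` outside `J` -/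
def ZIP (X : PMapP A N) (P : Pts A (AlgebraicClosure K)) (J : Set (Fin r)) :
    Set (MvPolynomial (Fin N) K) :=
  {f | ∀ (Q : Pts A (AlgebraicClosure K)) (z : Fin N → AlgebraicClosure K),
    (∀ b, b ∉ J → Q b = P b) → Val X.Fam (crds Q) z → ∀ a : AlgebraicClosure K,
      aeval (a • z) f = 0}

/-- points over a subfield -/
lemma exists_ptsE {L : Type} [Field L] [Algebra K L]
    (φ : AlgebraicClosure K →ₐ[K] AlgebraicClosure L) (P : Pts A (AlgebraicClosure K))
    (E : IntermediateField L (AlgebraicClosure L)) (hmem : ∀ b c, φ ((P b).1 c) ∈ E) :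
    ∃ P' : Pts A E, ∀ b, mapPt (A b) (E.val.restrictScalars K) (P' b) = mapPt (A b) φ (P b) := by
  refine ⟨fun b => ⟨fun c => ⟨φ ((P b).1 c), hmem b c⟩, ?_, fun i => ?_⟩, fun b => ?_⟩
  · obtain ⟨i, hi, hj⟩ := (P b).2.1
    refine ⟨i, Subtype.ext ?_, fun j hji => Subtype.ext ?_⟩
    · change φ ((P b).1 i) = 1
      rw [hi, map_one]
    · change φ ((P b).1 j) = 0
      rw [hj j hji, map_zero]
  · apply (E.val.restrictScalars K).toRingHom.injective
    have h1 := MvPolynomial.comp_aeval_apply (f := fun c => (⟨φ ((P b).1 c), hmem b c⟩ : E))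
      (E.val.restrictScalars K) ((A b).eqn i)
    change (E.val.restrictScalars K) _ = (E.val.restrictScalars K) 0
    rw [h1, map_zero]
    exact (mapPt (A b) φ (P b)).2.2 i
  · rfl

/-- two tuples of points over the algebraic closure are defined over a finite extension of `L` -/
lemma exists_fieldL2 {L : Type} [Field L] [Algebra K L]
    (φ : AlgebraicClosure K →ₐ[K] AlgebraicClosure L) (P R : Pts A (AlgebraicClosure K)) :
    ∃ E : IntermediateField L (AlgebraicClosure L), FiniteDimensional L E ∧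
      (∃ P' : Pts A E, ∀ b, mapPt (A b) (E.val.restrictScalars K) (P' b) = mapPt (A b) φ (P b)) ∧
      ∃ R' : Pts A E, ∀ b, mapPt (A b) (E.val.restrictScalars K) (R' b) = mapPt (A b) φ (R b) := by
  refine ⟨IntermediateField.adjoin L ((Set.range fun p : Fin r × Fin n => φ ((P p.1).1 p.2)) ∪
    Set.range fun p : Fin r × Fin n => φ ((R p.1).1 p.2)), ?_, ?_, ?_⟩
  · have : Finite ((Set.range fun p : Fin r × Fin n => φ ((P p.1).1 p.2)) ∪
      Set.range fun p : Fin r × Fin n => φ ((R p.1).1 p.2) : Set (AlgebraicClosure L)) :=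
      ((Set.finite_range _).union (Set.finite_range _)).to_subtype
    refine IntermediateField.finiteDimensional_adjoin (fun x _ => ?_)
    exact (AlgebraicClosure.isAlgebraic L).isIntegral.isIntegral x
  · exact exists_ptsE φ P _ (fun b c =>
      IntermediateField.subset_adjoin L _ (Or.inl ⟨(b, c), rfl⟩))
  · exact exists_ptsE φ R _ (fun b c =>
      IntermediateField.subset_adjoin L _ (Or.inr ⟨(b, c), rfl⟩))

theorem loc_mainP [NumberField K] [Fintype G] (hA : ∀ b, GeomSimple (A b)) {X : PMapP A N}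
    {T : GActP A G} (h : IsQuotP X T) {L : Type}
    [NontriviallyNormedField L] [CompleteSpace L] (σ : K →+* L) (hσ : DenseRange σ)
    (f : MvPolynomial (Fin N) K) {U : Set (Fin N → L)} (hU : IsOpen U) (h0 : (0 : Fin N → L) ∉ U)
    (hf : ∀ y : Fin N → K, y ≠ 0 → (∀ g ∈ X.eqX, eval y g = 0) →
      (∃ c : L, c ≠ 0 ∧ (fun i => c * σ (y i)) ∈ U) → ∀ a : K, eval (a • y) f = 0)
    (P : Pts A (AlgebraicClosure K)) (y : Fin N → K) (hy : Val X.Fam (crds P) (up y))
    {c0 : L} (hc0 : (fun i => c0 * σ (y i)) ∈ U) : f ∈ ZIP X P (NT (RP T P)) := by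
  have hprop : ProperSpace L := W279.Tri.properSpace_of_denseRange σ hσ
  let _ : Algebra K L := σ.toAlgebra
  let φ : AlgebraicClosure K →ₐ[K] AlgebraicClosure L := IsAlgClosed.lift
  obtain ⟨E, hE, ⟨P', hP'⟩, ⟨R', hR'⟩⟩ := exists_fieldL2 φ P (RP T P)
  let _ : TopologicalSpace E := moduleTopology L E
  have : IsModuleTopology L E := ⟨rfl⟩
  set ψ : E →ₐ[K] AlgebraicClosure L := E.val.restrictScalars K with hψ
  have hup : ∀ y : Fin N → K, mapV φ (up y) = mapV ψ (fun i => algebraMap K E (y i)) := by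
    intro y
    funext i
    change φ (algebraMap K (AlgebraicClosure K) (y i)) = ψ (algebraMap K E (y i))
    rw [AlgHom.commutes, AlgHom.commutes]
  have hval : ∀ (Q : Pts A (AlgebraicClosure K)) (Q' : Pts A E) (y : Fin N → K),
      (∀ b, mapPt (A b) ψ (Q' b) = mapPt (A b) φ (Q b)) → Val X.Fam (crds Q) (up y) →
      Val X.Fam (crds Q') (fun i => algebraMap K E (y i)) := by
    intro Q Q' y hQ hy
    refine Val.of_map ψ ?_
    have h1 := hy.map φ
    rw [hup] at h1
    have h2 : (fun j c => φ (crds Q j c)) = fun j c => ψ (crds Q' j c) := by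
      funext j c
      exact (congrArg (fun R : (A j).Pt (AlgebraicClosure L) => R.1 c) (hQ j)).symm
    rw [h2] at h1
    exact h1
  obtain ⟨W, hW, hnear⟩ := nearP X.Fam_hom A P' y (hval P P' y hP' hy) hU h0 hc0
  have key : ∀ k, ∀ C ∈ X.Fam, ∀ Q : Pts A (AlgebraicClosure K),
      (∀ b, b ∉ NT (RP T P) → Q b = P b) →
      ev (aeval C (homogeneousComponent k f)) (crds Q) = 0 := by
    intro k C hC Q hQ
    refine multi2 hA P (RP T P)
      (fun b => {U | ∃ W ∈ 𝓝 (0 : (A b).Pt E).1, U = {m : ℤ | Nr W (m • R' b).1}})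
      (fun b => isBas_nr (L := L) (A b) (R' b)) (fun b => {m | Nr (W b) (m • R' b).1})
      (fun b => ⟨W b, hW b, rfl⟩)
      (MH_aeval (homogeneousComponent_isHomogeneous k f) C (X.Fam_hom C hC)) (fun m hm => ?_) Q hQ
    obtain ⟨y', hy', hy'e, hy'v⟩ := ratP h P y hy m
    have h1 : ∀ b, mapPt (A b) ψ (P' b + m b • R' b) =
        mapPt (A b) φ (P b + m b • RP T P b) := by
      intro b
      change mapH (A b) ψ (P' b + m b • R' b) = mapH (A b) φ (P b + m b • RP T P b)
      rw [map_add, map_add, map_zsmul, map_zsmul, mapH_apply, mapH_apply, mapH_apply,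
        mapH_apply, hP', hR']
    obtain ⟨c, hc, hcU⟩ := hnear (fun b => m b • R' b) hm y' (hval _ _ y' h1 hy'v)
    have h2 : eval y' (homogeneousComponent k f) = 0 :=
      hom_comp_zero (hf y' hy'.ne_zero hy'e ⟨c, hc, hcU⟩) k
    obtain ⟨s, hs⟩ := hy'v.1 C hC
    rw [ev_aeval', hs, aeval_smul' (homogeneousComponent_isHomogeneous k f),
      (eval_up_iff y' _).2 h2, mul_zero]
  rintro Q z hQ hz a
  refine aeval_of_comp (fun k => ?_) a
  obtain ⟨C, hC, s, hs, hCs⟩ := hz.exists_ne
  have h1 := key k C hC Q hQ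
  rw [ev_aeval', hCs, aeval_smul' (homogeneousComponent_isHomogeneous k f)] at h1
  exact (mul_eq_zero.1 h1).resolve_left (pow_ne_zero _ hs)

end main

end Pool.Agent.K1H82.KA
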